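import Pool.Agent.U81.TP.Top

/-!
# Beilinson's conjecture for all pairs of weight one forms in infinite nonabelian towers

`E : y² = x³ + a x + b` is an elliptic curve over `ℚ`, `f` is its newform, and `K` is an imaginary quadratic field
of class number one in which the prime divisors of `2(4a³ + 27b²)` are unramified.  Suppose that `E(K)[2] = 0`, the
`2`-Selmer group of `E/K` is trivial, and `L(E/K, 1) ≠ 0`: the value `Φ(0)` of the primitive `Φ` of the harmonic
differential of the base change of `f` to `K` at the cusp `0` is not zero.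

A prime number `q` is admissible if it splits in `K` and `x³ + a x + b` has no roots modulo the two places above `q`
(and `E` has good reduction there).  The admissible primes have positive lower density among all primes.

Theorem.  For every infinite set `S` of admissible primes, as sparse as one likes, there is an infinite Galois extension
`T` of `ℚ` which contains `K` such that

* `Gal(T/K)` has exponent two, `T/K` is unramified outside of the places above the primes of `S`, and the places above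
  `2(4a³ + 27b²)` split completely in `T`;
* `T` contains infinitely many fields of degree `8` which are Galois over `ℚ` with a nonabelian Galois group (with the
  dihedral group of order eight);
* for all number fields `K ⊆ F ⊆ T` the group `E(F)` is finite, and if `F` is Galois over `ℚ`, then Beilinson's
  equality holds, with both sides zero, for the triple products of `f` with ALL pairs `(g, h)` of weight one forms
  whose Artin representations factor through `Gal(F/ℚ)` and such that `g` or `h` is a cusp form: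

  `ord_{s = 1} L(f ⊗ g ⊗ h, s) = dim Hom(V_gh, E(F) ⊗ ℂ) = 0`.

(The homomorphisms are those of representations of `Gal(F/ℚ)`; they are the same for `F` and for the field `H` of
`ρ_g ⊗ ρ_h`.  The part of `CH¹(X_1(N)/H)_0 ⊗ L` attached to `f` is `E(H) ⊗ L`.)  The cusp forms `g` are the theta series of the
quadratic characters `χ` of `Gal(F/K)` which are different from their conjugates `χ'`; each of the octic fields gives one.
For `h` one can take the theta series of any other character, or Eisenstein series.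

The starting result `DihedralTwoPower` of this problem has the field `F` as a hypothesis, and supposes that the central
value of `E/K` is odd; here only `L(E/K, 1) ≠ 0` is needed, and the fields are constructed, in infinite towers, with
ramification in arbitrary sets of admissible primes.

The proof.  The starting library of helper15 (`Pool.Agent.K4H15.BW.main`) gives a set `𝒟 ⊂ 𝓞`, a group modulo squares,
infinite, stable under the complex conjugation, such that the twist `L(f_K ⊗ χ_D, 1)` is not zero for `D ∈ 𝒟`; `T` is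
generated by the square roots of the `D ∈ 𝒟`.  By Kummer theory for the layers (`Pool.Agent.U81.MQ`, used in
`MP_cd906c_nt.NonabelianInfiniteTowers`) every layer `F` is given by elements of `𝒟`, so that the theorem on the
`L`-functions of the triple products of that library (`Pool.Agent.K4H15.BZ.an_main`) can be applied.  New here
(`Pool.Agent.U81.TP`): the octic fields, and the assembly.
-/

set_option autoImplicit false

open NumberField IsDedekindDomain Matrix WeierstrassCurve Filter Topology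
open scoped TensorProduct Kronecker

namespace Pool.Agent.Results.MP_60ff09_nt.InfiniteTowersOfPairs

/-- `K` is an imaginary quadratic field, `σ` is one of its two embeddings in `ℂ`, and `δ` generates the
different of `K`: an `x ∈ K` is in `𝓞` if and only if `Tr(x y / δ) ∈ ℤ` for all `y ∈ 𝓞`. -/
structure IsFieldData (K : Type) [Field K] [NumberField K] (σ : K →+* ℂ) (δ : K) : Prop where
  quadratic : Module.finrank ℚ K = 2
  imaginary : ∃ x, (starRingEnd ℂ) (σ x) ≠ σ x
  different : ∀ x : K, (∃ a : 𝓞 K, (a : K) = x) ↔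
    ∀ y : 𝓞 K, ∃ m : ℤ, Algebra.trace ℚ K (x * y / δ) = m

/-- `h(y) = ∫_0^∞ exp(-1/v - y v) dv = 2 y^(-1/2) K₁(2 √y)`, with the Bessel function `K₁`. -/
noncomputable def bessel (y : ℝ) : ℝ := ∫ v in Set.Ioi (0 : ℝ), Real.exp (-(1 / v) - y * v)

/-- The additive character `e(z) = exp(2πi (z/δ + conj (z/δ)))` of `ℂ`, trivial on `𝓞`. -/
noncomputable def addChar (δ z : ℂ) : ℂ :=
  Complex.exp (2 * Real.pi * Complex.I * (z / δ + (starRingEnd ℂ) (z / δ)))

/-- The denominator `|c z + d|² + |c|² t²` of the action of the matrix `(a, b; c, d)` on the hyperbolic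
space `{(z, t) : z ∈ ℂ, t > 0}`. -/
noncomputable def den (c d z : ℂ) (t : ℝ) : ℝ := ‖c * z + d‖ ^ 2 + ‖c‖ ^ 2 * t ^ 2

/-- The first coordinate `((a z + b) conj (c z + d) + a conj(c) t²) / (|c z + d|² + |c|² t²)` of the image
of `(z, t)` under the matrix `(a, b; c, d)`. -/
noncomputable def actZ (a b c d z : ℂ) (t : ℝ) : ℂ :=
  ((a * z + b) * (starRingEnd ℂ) (c * z + d) + a * (starRingEnd ℂ) c * (t : ℂ) ^ 2) /
    (den c d z t : ℂ)

/-- The second coordinate, for a matrix of determinant one; in general it is `|ad - bc|` times this. -/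
noncomputable def actT (c d z : ℂ) (t : ℝ) : ℝ := t / den c d z t

section field
variable {K : Type} [Field K] [NumberField K]

/-- The function `Φ(z, t) = ∑_{x ∈ 𝓞} c((x)) t² h(N(x) (2πt/|δ|)²) e(x z)
  = (|δ|/π) ∑_{x ≠ 0} (c((x))/|x|) t K₁(4π|x|t/|δ|) e(x z)` on the hyperbolic space, with the coefficients `c`.
Up to a constant factor it is the primitive, zero at the cusp `∞`, of the harmonic differential of the
form of weight two with the Fourier coefficients `c`: its derivative by `t` is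
`-4 ∑_{x ≠ 0} c((x)) t K₀(4π|x|t/|δ|) e(x z)`. -/
noncomputable def primitive (σ : K →+* ℂ) (δ : K) (c : Ideal (𝓞 K) → ℂ) (z : ℂ) (t : ℝ) : ℂ :=
  ∑' x : 𝓞 K, c (Ideal.span {x}) * ((t ^ 2 * bessel (Ideal.absNorm (Ideal.span {x}) *
    (2 * Real.pi * t / ‖σ δ‖) ^ 2) : ℝ) : ℂ) * addChar (σ δ) (σ x * z)

/-- The numbers `c(I)` are the Hecke eigenvalues of a Bianchi newform `f` of weight two, level `(n)` and
trivial character over `K`: they satisfy `c(𝓞) = 1`, the (trivial) bound `c(I) = O(N(I))`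
and the Hecke relations `c(v I) = c(v) c(I)` for `v ∤ I`, `c(v² I) = c(v) c(v I) - N(v) c(I)` for the primes `v ∤ n`, and
`c(v I) = c(v) c(I)` for `v ∣ n`; the differential `dΦ` of the function `Φ` with the coefficients `c` is
invariant under `Γ₀(n)`, that is, `Φ(γ P) - Φ(P)` is a constant for every `γ ∈ Γ₀(n)`; and `dΦ` is an
eigenform, with the eigenvalue `±1`, of the Fricke involution `W = (0, -1; n, 0)`. -/
structure IsNewform (σ : K →+* ℂ) (δ : K) (n : 𝓞 K) (c : Ideal (𝓞 K) → ℂ) : Prop where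
  level : n ≠ 0
  zero : c ⊥ = 0
  one : c ⊤ = 1
  bound : ∃ C : ℝ, ∀ I, ‖c I‖ ≤ C * Ideal.absNorm I
  good : ∀ v : HeightOneSpectrum (𝓞 K), n ∉ v.asIdeal → ∀ I,
    (¬ v.asIdeal ∣ I → c (v.asIdeal * I) = c v.asIdeal * c I) ∧
    c (v.asIdeal * (v.asIdeal * I)) = c v.asIdeal * c (v.asIdeal * I) -
      Ideal.absNorm v.asIdeal * c I
  bad : ∀ v : HeightOneSpectrum (𝓞 K), n ∈ v.asIdeal → ∀ I,
    c (v.asIdeal * I) = c v.asIdeal * c I
  invariant : ∃ κ : SpecialLinearGroup (Fin 2) (𝓞 K) → ℂ,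
    ∀ γ : SpecialLinearGroup (Fin 2) (𝓞 K), n ∣ γ.1 1 0 → ∀ (z : ℂ) (t : ℝ), 0 < t →
      primitive σ δ c (actZ (σ (γ.1 0 0)) (σ (γ.1 0 1)) (σ (γ.1 1 0)) (σ (γ.1 1 1)) z t)
        (actT (σ (γ.1 1 0)) (σ (γ.1 1 1)) z t) = primitive σ δ c z t + κ γ
  fricke : ∃ w κ : ℂ, w * w = 1 ∧ ∀ (z : ℂ) (t : ℝ), 0 < t →
    primitive σ δ c (actZ 0 (-1) (σ n) 0 z t) (‖σ n‖ * actT (σ n) 0 z t) =
      -w * primitive σ δ c z t + κ

/-- The central value is not zero: `Φ(0)`, the limit of `Φ(0, t)` for `t → 0`, is not zero.  (`L(f_K, 1)` is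
`(2π/|δ|)² Φ(0) / #𝓞ˣ`, see `MP_1a91b9_nt.BianchiTwoExtensions`.) -/
def NonzeroCentralValue (σ : K →+* ℂ) (δ : K) (c : Ideal (𝓞 K) → ℂ) : Prop :=
  ∃ z₀ : ℂ, z₀ ≠ 0 ∧ Tendsto (fun t => primitive σ δ c 0 t) (𝓝[>] 0) (𝓝 z₀)

/-- The number of the affine points of `y² = x³ + a x + b` over the residue field of `v`. -/
noncomputable def points (a b : 𝓞 K) (v : HeightOneSpectrum (𝓞 K)) : ℕ :=
  Nat.card {x : (𝓞 K ⧸ v.asIdeal) × (𝓞 K ⧸ v.asIdeal) //
    x.2 ^ 2 = x.1 ^ 3 + (Ideal.Quotient.mk v.asIdeal a) * x.1 + (Ideal.Quotient.mk v.asIdeal b)}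

/-- `f` is the newform of `E : y² = x³ + a x + b`: for `v ∤ 2(4a³ + 27b²)` (so that `E` has good reduction at `v`)
the level is prime to `v` and `c(v) = N(v) + 1 - #E(𝓞/v)`. -/
def IsNewformOf (a b n : 𝓞 K) (c : Ideal (𝓞 K) → ℂ) : Prop :=
  ∀ v : HeightOneSpectrum (𝓞 K), 2 * (4 * a ^ 3 + 27 * b ^ 2) ∉ v.asIdeal →
    n ∉ v.asIdeal ∧ c v.asIdeal = (Ideal.absNorm v.asIdeal : ℂ) - points a b v

section selmer
variable {L : Type} [Field L] [NumberField L] [Algebra K L]

/-- `L = K(θ)` is the cubic field of `E`: `θ³ + a θ + b = 0`, and every element of `L` is `u + v θ + w θ²` for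
unique `u, v, w ∈ K`.  So `x³ + a x + b` is irreducible over `K`, that is, `E(K)[2] = 0`. -/
structure IsCubicField (a b : 𝓞 K) (θ : L) : Prop where
  root : θ ^ 3 + algebraMap K L a * θ + algebraMap K L b = 0
  basis : ∀ β : L, ∃! t : K × K × K,
    β = algebraMap K L t.1 + algebraMap K L t.2.1 * θ + algebraMap K L t.2.2 * θ ^ 2

/-- The class of `α` in `(K_v ⊗ L)^×` modulo squares is in the group generated by the images of the points
`(x, y)`, `y ≠ 0`, of `E(K_v)` under the Kummer map `(x, y) ↦ x - θ`.  (This group is the image of `E(K_v)/2E(K_v)`, as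
the map is a homomorphism and all classes contain points with `y ≠ 0`.) -/
def LocalCondition (a b : 𝓞 K) (θ : L) (v : HeightOneSpectrum (𝓞 K)) (α : L) : Prop :=
  ∃ s : List (v.adicCompletion K),
    (∀ x ∈ s, ∃ y : v.adicCompletion K, y ≠ 0 ∧
      y ^ 2 = x ^ 3 + algebraMap K (v.adicCompletion K) a * x +
        algebraMap K (v.adicCompletion K) b) ∧
    IsSquare (((1 : v.adicCompletion K) ⊗ₜ[K] α) *
      (s.map fun x => x ⊗ₜ[K] (1 : L) - 1 ⊗ₜ[K] θ).prod)

/-- The `2`-Selmer group of `E/K` is trivial.  As `E(K)[2] = 0` and `K` has no real places, it is the group of the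
classes of `α ∈ L^×` modulo squares such that the norm of `α` is a square, `w(α)` is even for all places
`w ∤ 2(4a³ + 27b²)` of `L`, and `α` satisfies the local conditions at the places `v ∣ 2(4a³ + 27b²)` of `K`. -/
def TrivialSelmer (a b : 𝓞 K) (θ : L) : Prop :=
  ∀ α : L, α ≠ 0 → IsSquare (Algebra.norm K α) →
    (∀ w : HeightOneSpectrum (𝓞 L), algebraMap (𝓞 K) (𝓞 L) (2 * (4 * a ^ 3 + 27 * b ^ 2)) ∉
      w.asIdeal → IsSquare (w.valuation L α)) →
    (∀ v : HeightOneSpectrum (𝓞 K), 2 * (4 * a ^ 3 + 27 * b ^ 2) ∈ v.asIdeal →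
      LocalCondition a b θ v α) → IsSquare α

end selmer

/-- `q` is an admissible prime: `q` is an odd prime which splits in `K` (the places `v` of `K` above `q` have the norm
`q` and are unramified), and `v ∤ 2(4a³ + 27b²)` and `x³ + a x + b` has no root modulo `v` for the places `v` above `q`. -/
structure IsAdmissible (a b : 𝓞 K) (q : ℕ) : Prop where
  prime : q.Prime
  odd : q ≠ 2
  degree : ∀ v : HeightOneSpectrum (𝓞 K), (q : 𝓞 K) ∈ v.asIdeal → Ideal.absNorm v.asIdeal = q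
  unramified : ∀ v : HeightOneSpectrum (𝓞 K), (q : 𝓞 K) ∈ v.asIdeal → (q : 𝓞 K) ∉ v.asIdeal ^ 2
  good : ∀ v : HeightOneSpectrum (𝓞 K), (q : 𝓞 K) ∈ v.asIdeal →
    2 * (4 * a ^ 3 + 27 * b ^ 2) ∉ v.asIdeal
  noRoot : ∀ v : HeightOneSpectrum (𝓞 K), (q : 𝓞 K) ∈ v.asIdeal →
    ∀ x : 𝓞 K, x ^ 3 + a * x + b ∉ v.asIdeal

section extension

variable (F : Type) [Field F] [NumberField F] [Algebra K F]

/-- The places `u` of `F` above `v`. -/
def Above (v : HeightOneSpectrum (𝓞 K)) : Type :=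
  {u : HeightOneSpectrum (𝓞 F) // u.asIdeal.comap (algebraMap (𝓞 K) (𝓞 F)) = v.asIdeal}

/-- `F/K` is a Galois extension of `2`-power degree, the places `v ∣ 2(4a³ + 27b²)` of `K` split completely in `F`
(there is an embedding of `F` in `K_v`), and the places of `K` which are not above primes of `S` are unramified in `F`. -/
structure IsLayer (S : Set ℕ) (a b : 𝓞 K) : Prop where
  galois : IsGalois K F
  degree : ∃ k : ℕ, Module.finrank K F = 2 ^ k
  split : ∀ v : HeightOneSpectrum (𝓞 K), 2 * (4 * a ^ 3 + 27 * b ^ 2) ∈ v.asIdeal →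
    Nonempty (F →ₐ[K] v.adicCompletion K)
  unramified : ∀ v : HeightOneSpectrum (𝓞 K), 2 * (4 * a ^ 3 + 27 * b ^ 2) ∉ v.asIdeal →
    (∀ q ∈ S, (q : 𝓞 K) ∉ v.asIdeal) → ∀ u : Above F v, ∀ x : K,
      u.1.valuation F (algebraMap K F x) = v.valuation K x

end extension

open Classical in
/-- The Bianchi form with the Hecke eigenvalues `c` is the base change to `K` of the newform with the Fourier
coefficients `A` of level `N`: `c(v) = A(p)` if `N(v) = p`, and if `N(v) = p²` then `c(v) = A(p)² - 2p`, or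
`A(p)²` if `p ∣ N`. -/
def IsBaseChange (N : ℕ) (A : ℕ → ℂ) (c : Ideal (𝓞 K) → ℂ) : Prop :=
  ∀ p : ℕ, p.Prime → ∀ v : HeightOneSpectrum (𝓞 K), (p : 𝓞 K) ∈ v.asIdeal →
    (Ideal.absNorm v.asIdeal = p → c v.asIdeal = A p) ∧
    (Ideal.absNorm v.asIdeal = p ^ 2 → c v.asIdeal = A p ^ 2 - (if p ∣ N then 0 else 2 * (p : ℂ)))

variable (K) in
/-- The prime divisors of `2(4a³ + 27b²)` are unramified in `K`. -/
def Unramified (a b : ℤ) : Prop :=
  ∀ p : ℕ, p.Prime → (p : ℤ) ∣ 2 * (4 * a ^ 3 + 27 * b ^ 2) → ∀ v : HeightOneSpectrum (𝓞 K),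
    (p : 𝓞 K) ∈ v.asIdeal → (p : 𝓞 K) ∉ v.asIdeal ^ 2

end field

/-- The number of the affine points of `y² = x³ + a x + b` over `𝔽_p`. -/
noncomputable def pts (a b : ℤ) (p : ℕ) : ℕ :=
  Nat.card {x : ZMod p × ZMod p // x.2 ^ 2 = x.1 ^ 3 + (a : ZMod p) * x.1 + (b : ZMod p)}

/-- `A(p)` are the Fourier coefficients at the prime numbers of the newform of level `N` of the curve
`y² = x³ + a x + b` over `ℚ`: for `p ∤ 2(4a³ + 27b²)`, `p` does not divide `N` and `A(p) = p + 1 - #E(𝔽_p)`. -/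
def IsNewformOfQ (a b : ℤ) (N : ℕ) (A : ℕ → ℂ) : Prop :=
  ∀ p : ℕ, p.Prime → ¬ (p : ℤ) ∣ 2 * (4 * a ^ 3 + 27 * b ^ 2) →
    ¬ p ∣ N ∧ A p = (p : ℂ) - pts a b p

/-- The curve `E : y² = x³ + a x + b` over `ℚ`. -/
def curve (a b : ℤ) : WeierstrassCurve ℚ := ⟨0, 0, 0, a, b⟩

section rep

variable {F : Type} [Field F] [NumberField F]

/-- The Frobenius automorphisms at the place `v` of `F`: the automorphisms `σ` of `F` with
`σ x = x ^ p` modulo `v` for all the integers `x` of `F`, where `p` is the prime number below `v`.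
They are a coset of the inertia group of `v`. -/
def FrobSet (v : HeightOneSpectrum (𝓞 F)) : Set (F ≃ₐ[ℚ] F) :=
  {σ | IsArithFrobAt ℤ σ v.asIdeal}

/-- The Kronecker product of matrices, as a homomorphism of monoids. -/
noncomputable def kron : Matrix (Fin 2) (Fin 2) ℂ × Matrix (Fin 2) (Fin 2) ℂ →*
    Matrix (Fin 2 × Fin 2) (Fin 2 × Fin 2) ℂ where
  toFun A := A.1 ⊗ₖ A.2
  map_one' := Matrix.one_kronecker_one
  map_mul' A B := Matrix.mul_kronecker_mul A.1 B.1 A.2 B.2

/-- `ρ_g ⊗ ρ_h`, by the Kronecker products of matrices. -/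
noncomputable def tensor (ρ ρ' : (F ≃ₐ[ℚ] F) →* GL (Fin 2) ℂ) :
    (F ≃ₐ[ℚ] F) →* GL (Fin 2 × Fin 2) ℂ :=
  (Units.map kron).comp (MulEquiv.prodUnits.symm.toMonoidHom.comp (ρ.prod ρ'))

/-- `ρ` is irreducible: its matrices have no common eigenvector. -/
def Irreducible {G : Type} [Group G] (ρ : G →* GL (Fin 2) ℂ) : Prop :=
  ∀ x : Fin 2 → ℂ, x ≠ 0 →
    ¬ ∀ σ, ∃ l : ℂ, (ρ σ : Matrix (Fin 2) (Fin 2) ℂ).mulVec x = l • x

variable {κ : Type} [Fintype κ] [DecidableEq κ] (ρ : (F ≃ₐ[ℚ] F) →* GL κ ℂ)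

/-- The action of the Frobenius automorphism at `v` on the vectors of `V = ℂ^κ` fixed by the inertia
group of `v`, extended by zero: the average of the matrices `ρ(σ)` over all the Frobenius
automorphisms `σ` at `v`. -/
noncomputable def frob (v : HeightOneSpectrum (𝓞 F)) : Matrix κ κ ℂ :=
  (Nat.card (FrobSet v) : ℂ)⁻¹ • ∑ᶠ σ : FrobSet v, (ρ σ.1 : Matrix κ κ ℂ)

/-- The Euler factor of `L(V_f ⊗ V, s)` at the prime number `p`, where `v` is a place of `F` above `p`:
`det (1 - A(p) p^(-s) Φ + p^(1 - 2 s) Φ²)⁻¹` for `Φ = frob ρ v`, without the last term if `p ∣ N`.  (The fields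
`F` of the theorem are unramified at the `p ∣ N`.) -/
noncomputable def euler (A : ℕ → ℂ) (N : ℕ) (v : HeightOneSpectrum (𝓞 F)) (s : ℂ) (p : ℕ) : ℂ :=
  (1 - (A p * (p : ℂ) ^ (-s)) • frob ρ v +
    (if p ∣ N then 0 else (p : ℂ) ^ (1 - 2 * s)) • frob ρ v ^ 2).det⁻¹

/-- `L` is a meromorphic function on `ℂ`, and for `Re s > 2` it is `L(V_f ⊗ V, s)`, the product of the
Euler factors at all the prime numbers (for any choice of the places above them). -/
def IsLFunction (A : ℕ → ℂ) (N : ℕ) (L : ℂ → ℂ) : Prop :=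
  MeromorphicOn L Set.univ ∧
    ∀ V : Nat.Primes → HeightOneSpectrum (𝓞 F),
      (∀ p : Nat.Primes, ((p : ℕ) : 𝓞 F) ∈ (V p).asIdeal) → ∀ s : ℂ, 2 < s.re →
      HasProd (fun p : Nat.Primes => euler ρ A N (V p) s p) (L s)

variable (F) in
/-- The group `E(F)`. -/
abbrev Pts (a b : ℤ) : Type := ((curve a b).map (algebraMap ℚ F)).toAffine.Point

open Classical in
/-- The action of the automorphism `σ` on `E(F)`. -/
noncomputable def act (a b : ℤ) (σ : F ≃ₐ[ℚ] F) : Pts F a b →+ Pts F a b :=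
  Affine.Point.map (W' := (curve a b).toAffine) (σ : F →ₐ[ℚ] F)

end rep

/-- For a representation `ρ` of the group `G` on `V = ℂ^κ` and an action `α` of `G` on the abelian group
`A`: the linear map `φ : V → A ⊗ ℂ` commutes with `G`. -/
def IsHom {G κ A : Type} [Group G] [Fintype κ] [DecidableEq κ] [AddCommGroup A]
    (ρ : G →* GL κ ℂ) (α : G → A →+ A) (φ : (κ → ℂ) →ₗ[ℂ] (ℂ ⊗[ℤ] A)) : Prop :=
  ∀ (σ : G) (v : κ → ℂ),
    φ ((ρ σ : Matrix κ κ ℂ).mulVec v) = (α σ).toIntLinearMap.baseChange ℂ (φ v)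

section hom

variable {G κ A : Type} [Group G] [Fintype κ] [DecidableEq κ] [AddCommGroup A]
  (ρ : G →* GL κ ℂ) (α : G → A →+ A)

theorem IsHom.zero : IsHom ρ α 0 := fun σ v => by simp

variable {ρ α} in
theorem IsHom.add {φ ψ : (κ → ℂ) →ₗ[ℂ] (ℂ ⊗[ℤ] A)} (h : IsHom ρ α φ) (h' : IsHom ρ α ψ) :
    IsHom ρ α (φ + ψ) := fun σ v => by
  rw [LinearMap.add_apply, LinearMap.add_apply, h σ v, h' σ v, map_add]

variable {ρ α} in
theorem IsHom.smul (a : ℂ) {φ : (κ → ℂ) →ₗ[ℂ] (ℂ ⊗[ℤ] A)} (h : IsHom ρ α φ) :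
    IsHom ρ α (a • φ) := fun σ v => by
  rw [LinearMap.smul_apply, LinearMap.smul_apply, h σ v, map_smul]

/-- `Hom_G(V, A ⊗ ℂ)`, the space of the linear maps which commute with the action of `G`. -/
noncomputable def homs : Submodule ℂ ((κ → ℂ) →ₗ[ℂ] (ℂ ⊗[ℤ] A)) where
  carrier := {φ | IsHom ρ α φ}
  zero_mem' := IsHom.zero ρ α
  add_mem' := IsHom.add
  smul_mem' := IsHom.smul

/-- The dimension of `Hom_G(V, A ⊗ ℂ)`. -/
noncomputable def dimHom : ℕ := Module.finrank ℂ (homs ρ α)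

theorem homs_zero [Finite A] : homs ρ α = ⊥ := by
  have h1 : ∀ x : ℂ ⊗[ℤ] A, x = 0 := by
    intro x
    induction x using TensorProduct.induction_on with
    | zero => rfl
    | tmul a P =>
      have hN : (Nat.card A : ℂ) ≠ 0 := by
        have : 0 < Nat.card A := Nat.card_pos
        exact_mod_cast this.ne'
      have h2 : Nat.card A • P = 0 := card_nsmul_eq_zero'
      have h3 : a = (Nat.card A : ℤ) • (a * (Nat.card A : ℂ)⁻¹) := by
        rw [zsmul_eq_mul]
        push_cast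
        field_simp
      rw [h3, TensorProduct.smul_tmul, natCast_zsmul, h2, TensorProduct.tmul_zero]
    | add x y hx hy => rw [hx, hy, add_zero]
  rw [eq_bot_iff]
  intro φ _
  rw [Submodule.mem_bot]
  exact LinearMap.ext fun v => h1 _

theorem dimHom_zero [Finite A] : dimHom ρ α = 0 := by
  unfold dimHom
  rw [homs_zero]
  exact finrank_bot ℂ _

end hom

section pairs

variable (F : Type) [Field F] [NumberField F]

open Classical in
/-- Beilinson's equality for `(f, g, h)`, with both sides zero: `L(f ⊗ g ⊗ h, s)` has a meromorphic continuation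
that is analytic at `s = 1`, and its order there is `dim Hom(V_gh, E(F) ⊗ ℂ)` and zero. -/
def Equality (a b : ℤ) (N : ℕ) (A : ℕ → ℂ) (ρg ρh : (F ≃ₐ[ℚ] F) →* GL (Fin 2) ℂ) : Prop :=
  ∃ L : ℂ → ℂ, IsLFunction (tensor ρg ρh) A N L ∧ AnalyticAt ℂ L 1 ∧
    analyticOrderAt L 1 = dimHom (tensor ρg ρh) (act (F := F) a b) ∧ analyticOrderAt L 1 = 0

variable {F} in
theorem Equality.of {a b : ℤ} {N : ℕ} {A : ℕ → ℂ} {ρg ρh : (F ≃ₐ[ℚ] F) →* GL (Fin 2) ℂ}
    (hfin : Finite (Pts F a b)) {L : ℂ → ℂ} (h1 : IsLFunction (tensor ρg ρh) A N L)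
    (h2 : AnalyticAt ℂ L 1) (h3 : L 1 ≠ 0) : Equality F a b N A ρg ρh := by
  classical
  have h7 := dimHom_zero (A := Pts F a b) (tensor ρg ρh) (act (F := F) a b)
  have h8 : analyticOrderAt L 1 = 0 := analyticOrderAt_eq_zero.2 (Or.inr h3)
  refine ⟨L, h1, h2, ?_, h8⟩
  rw [h8, h7]
  rfl

end pairs

/-- The conclusion for the number field `F`: `E(F)` is finite, and if `F` is Galois over `ℚ`, then Beilinson's equality
holds for all the pairs of two-dimensional representations `ρ_g`, `ρ_h` of `Gal(F/ℚ)`, one of which is irreducible. -/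
def AllPairs (F : Type) [Field F] [NumberField F] (a b : ℤ) (N : ℕ) (A : ℕ → ℂ) : Prop :=
  Finite (Pts F a b) ∧ (IsGalois ℚ F → ∀ ρg ρh : (F ≃ₐ[ℚ] F) →* GL (Fin 2) ℂ,
    Irreducible ρg ∨ Irreducible ρh → Equality F a b N A ρg ρh)

theorem curve_map {K : Type} [Field K] [NumberField K] (F : Type) [Field F] [NumberField F]
    [Algebra K F] (a b : ℤ) : (curve a b).map (algebraMap ℚ F) =
      K4H55.BD.crv (algebraMap K F ((a : 𝓞 K) : K)) (algebraMap K F ((b : 𝓞 K) : K)) := by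
  unfold curve K4H55.BD.crv WeierstrassCurve.map
  simp

theorem allPairs {K : Type} [Field K] [NumberField K] (F : Type) [Field F] [NumberField F]
    [Algebra K F] {a b : ℤ} {N : ℕ} {A : ℕ → ℂ}
    (h1 : Finite (K4H55.BD.crv (algebraMap K F ((a : 𝓞 K) : K))
      (algebraMap K F ((b : 𝓞 K) : K))).toAffine.Point) (h2 : U81.TP.AllL F A N) :
    AllPairs F a b N A := by
  have hfin : Finite (Pts F a b) := by
    unfold Pts
    rw [curve_map (K := K) F a b]
    exact h1
  refine ⟨hfin, fun hg ρg ρh hirr => ?_⟩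
  have hρ0 : ∀ s α, (1 - α • K4H15.BT.cM (tensor ρg ρh s)).det =
      K4H15.BZ.kp (K4H15.BT.cM (ρg s)).trace (K4H15.BT.cM (ρg s)).det
        (K4H15.BT.cM (ρh s)).trace (K4H15.BT.cM (ρh s)).det α := fun s α =>
    K4H15.BZ.kron_det (K4H15.BT.cM (ρg s)) (K4H15.BT.cM (ρh s)) α
  rcases hirr with h7 | h7
  · obtain ⟨l, l1, l2, l3, l4⟩ := h2 hg ρg ρh (tensor ρg ρh) h7 hρ0
    exact Equality.of hfin ⟨l1, fun V hV s hs => l2 V hV s hs⟩ l3 l4
  · obtain ⟨l, l1, l2, l3, l4⟩ := h2 hg ρh ρg (tensor ρg ρh) h7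
      (fun s α => by rw [hρ0, K4H15.BZ.kp_swap])
    exact Equality.of hfin ⟨l1, fun V hV s hs => l2 V hV s hs⟩ l3 l4

open Classical in
/-- **Theorem.** Let `K` be an imaginary quadratic field of class number one, `E : y² = x³ + a x + b` an elliptic curve
over `ℚ` with the newform `f` of level `N`, and suppose that the prime divisors of `2(4a³ + 27b²)` are unramified in `K`,
`E(K)[2] = 0`, the `2`-Selmer group of `E/K` is trivial, and `L(E/K, 1) ≠ 0`.  Then the admissible primes have positive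
lower density, and for every infinite set `S` of admissible primes there is a Galois extension `T` of `ℚ`, `K ⊆ T`, with
`Gal(T/K)` of exponent two, which contains infinitely many fields of degree `4` over `K` which are Galois over `ℚ` with a
nonabelian Galois group, and such that for all number fields `K ⊆ F ⊆ T`: `F/K` is Galois of `2`-power degree, unramified
outside of `S`, and the places above `2(4a³ + 27b²)` split completely; `E(F)` is finite; and if `F` is Galois over `ℚ`, then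
for all pairs of two-dimensional representations `ρ_g`, `ρ_h` of `Gal(F/ℚ)`, one of which is irreducible,
`L(f ⊗ g ⊗ h, s)` has a meromorphic continuation, is analytic at `s = 1`, and Beilinson's equality holds:
`ord_{s = 1} L(f ⊗ g ⊗ h, s) = dim Hom(V_gh, E(F) ⊗ ℂ) = 0`. -/
theorem result (K : Type) [Field K] [NumberField K] [IsPrincipalIdealRing (𝓞 K)] (σ : K →+* ℂ)
    (δ : K) (hK : IsFieldData K σ δ) (a b : ℤ) (hΔ : 4 * a ^ 3 + 27 * b ^ 2 ≠ 0) (N : ℕ)
    (A : ℕ → ℂ) (hA : IsNewformOfQ a b N A) (hur : Unramified K a b)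
    (c : Ideal (𝓞 K) → ℂ) (hf : IsNewform σ δ (N : 𝓞 K) c)
    (hE : IsNewformOf (a : 𝓞 K) (b : 𝓞 K) (N : 𝓞 K) c) (hbc : IsBaseChange N A c)
    (hne : NonzeroCentralValue σ δ c)
    (L : Type) [Field L] [NumberField L] [Algebra K L] (θ : L)
    (hθ : IsCubicField (a : 𝓞 K) (b : 𝓞 K) θ) (hS : TrivialSelmer (a : 𝓞 K) (b : 𝓞 K) θ) :
    (∃ d : ℝ, 0 < d ∧ ∀ᶠ M : ℕ in atTop,
      d * (M / Real.log M) ≤ Nat.card {q : ℕ // q ≤ M ∧ IsAdmissible (a : 𝓞 K) (b : 𝓞 K) q}) ∧
    ∀ S : Set ℕ, S.Infinite → (∀ q ∈ S, IsAdmissible (a : 𝓞 K) (b : 𝓞 K) q) →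
      ∃ T : IntermediateField K (AlgebraicClosure K), IsGalois ℚ T ∧
        (∀ s : T ≃ₐ[K] T, s * s = 1) ∧
        {F : IntermediateField K (AlgebraicClosure K) | F ≤ T ∧ Module.finrank K F = 4 ∧
          IsGalois ℚ F ∧ ∃ s t : F ≃ₐ[ℚ] F, s * t ≠ t * s}.Infinite ∧
        ∀ (F : IntermediateField K (AlgebraicClosure K)) [NumberField F], F ≤ T →
          IsLayer F S (a : 𝓞 K) (b : 𝓞 K) ∧ AllPairs F a b N A := by
  have h : K4H55.BI.IQ K σ δ := ⟨hK.quadratic, hK.imaginary, inferInstance, hK.different⟩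
  have hf' : K4H55.BI.BF σ δ (N : 𝓞 K) c := ⟨hf.level, hf.zero, hf.one, hf.bound, hf.good, hf.bad,
    hf.invariant, hf.fricke⟩
  have hcub : K4H55.BD.Cub K θ := by
    refine ⟨fun p q r h0 => ?_, fun β => ?_⟩
    · obtain ⟨t, ht, hu⟩ := hθ.basis 0
      have h1 := hu (p, q, r) h0.symm
      have h2 := hu (0, 0, 0) (by simp)
      have h3 := h1.trans h2.symm
      simp only [Prod.mk.injEq] at h3
      exact h3
    · obtain ⟨t, ht, -⟩ := hθ.basis β
      exact ⟨t.1, t.2.1, t.2.2, ht⟩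
  have hΔ' : 4 * (a : 𝓞 K) ^ 3 + 27 * (b : 𝓞 K) ^ 2 ≠ 0 := by exact_mod_cast hΔ
  have hm : 2 * (4 * (a : 𝓞 K) ^ 3 + 27 * (b : 𝓞 K) ^ 2) =
      ((2 * (4 * a ^ 3 + 27 * b ^ 2) : ℤ) : 𝓞 K) := by push_cast; rfl
  have hE' : ∀ v : HeightOneSpectrum (𝓞 K), 2 * (4 * (a : 𝓞 K) ^ 3 + 27 * (b : 𝓞 K) ^ 2) ∉
      v.asIdeal → (N : 𝓞 K) ∉ v.asIdeal ∧
        c v.asIdeal = (Ideal.absNorm v.asIdeal : ℂ) - K4H55.BD.pv (a : 𝓞 K) (b : 𝓞 K) v :=
    fun v hv => hE v hv
  obtain ⟨z, hz0, hz⟩ := hne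
  obtain ⟨G₀, k1, k2, k3⟩ := K4H55.CX.chr_one h hf' hz
  have hG0 : G₀ 1 ≠ 0 := by
    rw [k3]
    exact mul_ne_zero (K4H55.CX.A_ne h) hz0
  have h0 : K4H15.BW.NVD (a : 𝓞 K) (b : 𝓞 K) (N : 𝓞 K) c 1 := by
    refine U81.MQ.nvd_one hE' k1 (fun s hs => ?_) hG0
    have h5 := k2 s hs
    refine (congrArg (fun g => HasProd g (G₀ s)) (funext fun v => ?_)).mp h5
    rw [U81.BX.fct_self hE' s v]
  have hur' : ∀ w : HeightOneSpectrum (𝓞 K),
      2 * (4 * (a : 𝓞 K) ^ 3 + 27 * (b : 𝓞 K) ^ 2) ∈ w.asIdeal →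
      ∀ p : ℕ, p.Prime → (p : 𝓞 K) ∈ w.asIdeal → (p : 𝓞 K) ∉ w.asIdeal ^ 2 := by
    intro w hw p hp hpw
    rw [hm] at hw
    exact hur p hp ((K4H55.BD.int_mem hp hpw).1 hw) w hpw
  have hA' : ∀ p : ℕ, p.Prime → ¬ (p : ℤ) ∣ (2 * (4 * a ^ 3 + 27 * b ^ 2) : ℤ) →
      ¬ p ∣ N ∧ ∃ k : ℕ, k ≤ 2 * p ∧ A p = p - k := by
    intro p hp hpm
    obtain ⟨h7, h8⟩ := hA p hp hpm
    have : Fact p.Prime := ⟨hp⟩
    refine ⟨h7, pts a b p, ?_, h8⟩
    have h9 := K4H15.BZ.card_pts (R := ZMod p) (a : ZMod p) (b : ZMod p)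
    rwa [Nat.card_zmod] at h9
  have hadm : ∀ q, IsAdmissible (a : 𝓞 K) (b : 𝓞 K) q ↔
      q ∈ K4H55.BD.QE h (a : 𝓞 K) (b : 𝓞 K) (N : 𝓞 K) := by
    intro q
    rw [U81.MQ.qe_iff h hE']
    constructor
    · intro h1
      exact ⟨h1.prime, h1.odd, fun v hv => ⟨h1.degree v hv, h1.unramified v hv, h1.good v hv,
        h1.noRoot v hv⟩⟩
    · rintro ⟨h1, h2, h3⟩
      exact ⟨h1, h2, fun v hv => (h3 v hv).1, fun v hv => (h3 v hv).2.1,
        fun v hv => (h3 v hv).2.2.1, fun v hv => (h3 v hv).2.2.2⟩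
  refine ⟨?_, fun S hSi hSa => ?_⟩
  · obtain ⟨d, hd, h1⟩ := U81.MQ.dens h (n := (N : 𝓞 K)) hΔ' hf.level hcub hθ.root
    refine ⟨d, hd, h1.mono fun M hM => hM.trans (le_of_eq ?_)⟩
    congr 1
    exact Nat.card_congr (Equiv.subtypeEquivRight fun q => by rw [hadm])
  · obtain ⟨T, t1, t2, t3, t4⟩ := U81.TP.pairs h hΔ' hf' hE' h0 hcub hθ.root hS hSi
      (fun q hq => (hadm q).1 (hSa q hq)) hm hur' rfl hA'
      (fun p hp w hw => (hbc p hp w hw).1) (fun p hp w hw => (hbc p hp w hw).2)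
    refine ⟨T, t1, t2, t3, fun F _ hF => ?_⟩
    obtain ⟨f1, f2, f3, f4, f5, f6⟩ := t4 F hF
    refine ⟨⟨f1, f2, f3, fun v hv hq u x => ?_⟩, allPairs (K := K) F f5 f6⟩
    obtain ⟨u, hu⟩ := u
    have hv' : K4H55.BD.low (K := K) u = v := HeightOneSpectrum.ext hu
    subst hv'
    exact f4 u hv hq x

end Pool.Agent.Results.MP_60ff09_nt.InfiniteTowersOfPairs
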