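import Pool.Agent.K4H15.BT.Main
import Pool.Agent.U297.TT.Alg

/-!
# Beilinson's conjecture for the newform of level 27 and all pairs of weight one forms of the
# extensions of `ℚ(√-3)` of 2-power degree, with the central values

`f` is the newform of weight two and level `27`, which has complex multiplication by `F = ℚ(√-3)`, the field of
the third roots of unity, and `E` is the curve `y² + y = x³` in its isogeny class.  The field `K` contains `F`, it
is Galois over `ℚ` and of degree `2 ^ n` over `F`, with an Artin map of modulus `m` over `F`, where `2` is not a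
cube modulo any prime divisor of `m`.  By class field theory these are all the fields of 2-power degree which are
Galois over `ℚ`, abelian over `F` and unramified over `F` outside of the prime numbers `p = 1` modulo `3` for which
`2` is not a cube modulo `p`.  Their Galois groups over `ℚ` are not abelian in general; the degree, the exponent and
the number of the ramified primes are not bounded.

Theorem.  `E(K)` is finite of odd order.  For ALL complex representations `V` of `Gal(K/ℚ)`, of any dimension `d`: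
* the `L`-function `L(V_f ⊗ V, s)` has a meromorphic continuation to `ℂ`, it is analytic at `s = 1`, and
  `ord_{s = 1} L(V_f ⊗ V, s) = dim Hom(V, E(K) ⊗ ℂ) = 0`;
* `L(V_f ⊗ V, 1) = z Ω ^ d`, where `Ω` is the real period of `E` and `z` is an algebraic number which is a unit at all
  the places above `2`: `z` and `1 / z` are roots of polynomials over `ℤ` with odd leading coefficients.

In particular, for ALL pairs `(g, h)` of weight one forms whose Artin representations factor through `Gal(K/ℚ)`
(cusp forms and Eisenstein series), and all characters `χ` of `Gal(K/ℚ)`, Beilinson's equality holds for the triple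
product of `f ⊗ χ`, `g` and `h` (with `χ = 1`: of `f`, `g` and `h`):

`ord_{s = 1} L((f ⊗ χ) ⊗ g ⊗ h, s) = dim Hom(V_χ ⊗ V_gh, E(K) ⊗ ℂ) = 0`,   `L((f ⊗ χ) ⊗ g ⊗ h, 1) = z Ω ^ 4`.

(The part of `CH¹(X_1(27)/K)_0 ⊗ L` attached to `f` is `E(K) ⊗ L`.  At the prime number `3` the Euler factor is `1`: the
extension `K/F` is unramified at `3`, so that the wild inertia group acts trivially on `V`, and it has no invariants
in the representation `V_f` of conductor `27`.)

This is not contained in the theorem `DihedralTwoPower` of the starting files: there the primes of bad reduction have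
to be unramified in the imaginary quadratic field, so that the forms `f` with complex multiplication by the field are
excluded, one of `g`, `h` has to be a cusp form, and the central values are not computed.

The proof.  The finiteness of `E(K)` is `Pool.Agent.Y696.all_art`, and the continuation of `L(V_f ⊗ V, s)` and its value
at `s = 1` for the valuations above `2` is `Pool.Agent.K4H15.BT.analytic_part`; both are theorems of the starting library
which were not used for this problem.  New here: the triple products and the comparison with `E(K) ⊗ ℂ`, the comparison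
of the periods (as in `Pool.Agent.R431.B`), and the algebraicity of `L(V_f ⊗ V, 1) / Ω ^ d`, which follows from the
statement on the valuations: a complex number with `w(z) ≤ 1` for ALL the valuations `w` of `ℂ` with `w(2) < 1` is the root
of a polynomial over `ℤ` with odd leading coefficient (`Pool.Agent.U297.TT.odd_poly`).
-/

set_option autoImplicit false

open NumberField IsDedekindDomain Matrix WeierstrassCurve Filter Topology
open scoped TensorProduct Kronecker Polynomial

namespace Pool.Agent.Results.MP_60ff09_nt.LevelTwentySeven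

/-- The Fourier coefficient `A(p)` at the prime number `p` of the newform `f` of level `27`: the number
`p + 1 - #E(𝔽_p)` for the curve `E : y² + y = x³`, which has one point at infinity. -/
noncomputable def coeff (p : ℕ) : ℤ :=
  (p : ℤ) - Nat.card {P : ZMod p × ZMod p // P.2 ^ 2 + P.2 = P.1 ^ 3}

/-- The real period of `y² + y = x³`: twice the integral of `dx / √(4 x³ + 1)` over the `x` with `4 x³ + 1 > 0`. -/
noncomputable def Om : ℝ := 2 * ∫ x in {x : ℝ | 0 < 4 * x ^ 3 + 1}, 1 / √(4 * x ^ 3 + 1)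

/-- The curve `E : y² + y = x³` over `ℚ`. -/
def curve : WeierstrassCurve ℚ := ⟨0, 0, 1, 0, 0⟩

/-- `art` is the Artin map of the extension `K / F`, of modulus `c`: it maps the classes prime to `c` onto the Galois
group, the extension is unramified at the primes of `K` that do not divide `c`, and the class of a prime
element `π` of `F` is mapped to a Frobenius automorphism at every prime of `K` above `π`. -/
structure IsArtin {F K : Type} [Field F] [NumberField F] [Field K] [NumberField K] [Algebra F K]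
    (c : 𝓞 F) (art : (𝓞 F ⧸ Ideal.span {c})ˣ →* Gal(K/F)) : Prop where
  surj : Function.Surjective art
  unr : ∀ v : HeightOneSpectrum (𝓞 K), algebraMap (𝓞 F) (𝓞 K) c ∉ v.asIdeal →
    Algebra.IsUnramifiedAt (𝓞 F) v.asIdeal
  frob : ∀ π : 𝓞 F, Prime π → ∀ u : (𝓞 F ⧸ Ideal.span {c})ˣ,
    (u : 𝓞 F ⧸ Ideal.span {c}) = Ideal.Quotient.mk _ π →
    ∀ v : HeightOneSpectrum (𝓞 K), algebraMap (𝓞 F) (𝓞 K) π ∈ v.asIdeal →
      ∀ x : 𝓞 K, art u • x - x ^ Nat.card (𝓞 F ⧸ Ideal.span {π}) ∈ v.asIdeal

section rep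

variable {K : Type} [Field K] [NumberField K]

/-- The Frobenius automorphisms at the place `v` of `K`: the automorphisms `σ` of `K` with
`σ x = x ^ p` modulo `v` for all the integers `x` of `K`, where `p` is the prime number below `v`.
They are a coset of the inertia group of `v`. -/
def FrobSet (v : HeightOneSpectrum (𝓞 K)) : Set (K ≃ₐ[ℚ] K) :=
  {σ | IsArithFrobAt ℤ σ v.asIdeal}

/-- The Kronecker product of matrices, as a homomorphism of monoids. -/
noncomputable def kron : Matrix (Fin 2) (Fin 2) ℂ × Matrix (Fin 2) (Fin 2) ℂ →*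
    Matrix (Fin 2 × Fin 2) (Fin 2 × Fin 2) ℂ where
  toFun A := A.1 ⊗ₖ A.2
  map_one' := Matrix.one_kronecker_one
  map_mul' A B := Matrix.mul_kronecker_mul A.1 B.1 A.2 B.2

/-- `ρ_g ⊗ ρ_h`, by the Kronecker products of matrices. -/
noncomputable def tensor (ρ ρ' : (K ≃ₐ[ℚ] K) →* GL (Fin 2) ℂ) :
    (K ≃ₐ[ℚ] K) →* GL (Fin 2 × Fin 2) ℂ :=
  (Units.map kron).comp (MulEquiv.prodUnits.symm.toMonoidHom.comp (ρ.prod ρ'))

variable {κ : Type} [Fintype κ] [DecidableEq κ] (ρ : (K ≃ₐ[ℚ] K) →* GL κ ℂ)

/-- The representation `χ ⊗ ρ`, `σ ↦ χ(σ) ρ(σ)`, for a character `χ`. -/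
noncomputable def twist (χ : (K ≃ₐ[ℚ] K) →* ℂˣ) : (K ≃ₐ[ℚ] K) →* GL κ ℂ where
  toFun σ := Units.map (Matrix.scalar κ : ℂ →+* Matrix κ κ ℂ).toMonoidHom (χ σ) * ρ σ
  map_one' := by simp
  map_mul' σ τ := by
    apply Units.ext
    simp only [map_mul, Units.val_mul, Units.coe_map]
    have h := Matrix.scalar_commute (n := κ) (χ τ : ℂ) (fun r => mul_comm _ r)
      (ρ σ : Matrix κ κ ℂ)
    show Matrix.scalar κ (χ σ : ℂ) * Matrix.scalar κ (χ τ : ℂ) *
      ((ρ σ : Matrix κ κ ℂ) * (ρ τ : Matrix κ κ ℂ)) =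
      Matrix.scalar κ (χ σ : ℂ) * (ρ σ : Matrix κ κ ℂ) *
        (Matrix.scalar κ (χ τ : ℂ) * (ρ τ : Matrix κ κ ℂ))
    rw [mul_assoc, mul_assoc, ← mul_assoc (Matrix.scalar κ (χ τ : ℂ)), h.eq, mul_assoc]

/-- The action of the Frobenius automorphism at `v` on the vectors of `V = ℂ^κ` fixed by the inertia
group of `v`, extended by zero: the average of the matrices `ρ(σ)` over all the Frobenius
automorphisms `σ` at `v`. -/
noncomputable def frob (v : HeightOneSpectrum (𝓞 K)) : Matrix κ κ ℂ :=
  (Nat.card (FrobSet v) : ℂ)⁻¹ • ∑ᶠ σ : FrobSet v, (ρ σ.1 : Matrix κ κ ℂ)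

/-- The Euler factor of `L(V_f ⊗ V, s)` at the prime number `p`, where `v` is a place of `K` above `p`:
`det (1 - A(p) p^(-s) Φ + p^(1 - 2 s) Φ²)⁻¹` for `Φ = frob ρ v`, without the last term if `p = 3` (then `A(3) = 0`, and the
factor is `1`). -/
noncomputable def euler (v : HeightOneSpectrum (𝓞 K)) (s : ℂ) (p : ℕ) : ℂ :=
  (1 - ((coeff p : ℂ) * (p : ℂ) ^ (-s)) • frob ρ v +
    (if p ∣ 27 then 0 else (p : ℂ) ^ (1 - 2 * s)) • frob ρ v ^ 2).det⁻¹

/-- `L` is a meromorphic function on `ℂ`, and for `Re s > 3/2` it is `L(V_f ⊗ V, s)`, the product of the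
Euler factors at all the prime numbers (for any choice of the places above them). -/
def IsLFunction (L : ℂ → ℂ) : Prop :=
  MeromorphicOn L Set.univ ∧
    ∀ V : Nat.Primes → HeightOneSpectrum (𝓞 K),
      (∀ p : Nat.Primes, ((p : ℕ) : 𝓞 K) ∈ (V p).asIdeal) → ∀ s : ℂ, 3 / 2 < s.re →
      HasProd (fun p : Nat.Primes => euler ρ (V p) s p) (L s)

variable (K) in
/-- The group `E(K)`. -/
abbrev Pts : Type := (curve.map (algebraMap ℚ K)).toAffine.Point

open Classical in
/-- The action of the automorphism `σ` on `E(K)`. -/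
noncomputable def act (σ : K ≃ₐ[ℚ] K) : Pts K →+ Pts K :=
  Affine.Point.map (W' := curve.toAffine) (σ : K →ₐ[ℚ] K)

end rep

/-- For a representation `ρ` of the group `G` on `V = ℂ^κ` and an action `α` of `G` on the abelian group
`A`: the linear map `φ : V → A ⊗ ℂ` commutes with `G`. -/
def IsHom {G κ A : Type} [Group G] [Fintype κ] [DecidableEq κ] [AddCommGroup A]
    (ρ : G →* GL κ ℂ) (α : G → A →+ A) (φ : (κ → ℂ) →ₗ[ℂ] (ℂ ⊗[ℤ] A)) : Prop :=
  ∀ (σ : G) (v : κ → ℂ),
    φ ((ρ σ : Matrix κ κ ℂ).mulVec v) = (α σ).toIntLinearMap.baseChange ℂ (φ v)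

section hom

variable {G κ A : Type} [Group G] [Fintype κ] [DecidableEq κ] [AddCommGroup A]
  (ρ : G →* GL κ ℂ) (α : G → A →+ A)

/-- `Hom_G(V, A ⊗ ℂ)`, the space of the linear maps which commute with the action of `G`. -/
noncomputable def homs : Submodule ℂ ((κ → ℂ) →ₗ[ℂ] (ℂ ⊗[ℤ] A)) where
  carrier := {φ | IsHom ρ α φ}
  zero_mem' := fun σ v => by simp
  add_mem' := fun {φ ψ} h h' σ v => by
    rw [LinearMap.add_apply, LinearMap.add_apply, h σ v, h' σ v, map_add]
  smul_mem' := fun a φ h σ v => by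
    rw [LinearMap.smul_apply, LinearMap.smul_apply, h σ v, map_smul]

/-- The dimension of `Hom_G(V, A ⊗ ℂ)`. -/
noncomputable def dimHom : ℕ := Module.finrank ℂ (homs ρ α)

theorem homs_zero [Finite A] : homs ρ α = ⊥ := by
  have h1 : ∀ x : ℂ ⊗[ℤ] A, x = 0 := by
    intro x
    induction x using TensorProduct.induction_on with
    | zero => rfl
    | tmul a P =>
      have hN : (Nat.card A : ℂ) ≠ 0 := by
        have : 0 < Nat.card A := Nat.card_pos
        exact_mod_cast this.ne'
      have h2 : Nat.card A • P = 0 := card_nsmul_eq_zero'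
      have h3 : a = (Nat.card A : ℤ) • (a * (Nat.card A : ℂ)⁻¹) := by
        rw [zsmul_eq_mul]
        push_cast
        field_simp
      rw [h3, TensorProduct.smul_tmul, natCast_zsmul, h2, TensorProduct.tmul_zero]
    | add x y hx hy => rw [hx, hy, add_zero]
  rw [eq_bot_iff]
  intro φ _
  rw [Submodule.mem_bot]
  exact LinearMap.ext fun v => h1 _

theorem dimHom_zero [Finite A] : dimHom ρ α = 0 := by
  unfold dimHom
  rw [homs_zero]
  exact finrank_bot ℂ _

end hom

/-- `z` is an algebraic number which is a unit at all the places above `2`: `z ≠ 0`, and `z` and `1 / z` are roots of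
polynomials with integral coefficients and odd leading coefficients. -/
def IsTwoUnit (z : ℂ) : Prop :=
  z ≠ 0 ∧ (∃ P : ℤ[X], Odd P.leadingCoeff ∧ Polynomial.aeval z P = 0) ∧
    ∃ P : ℤ[X], Odd P.leadingCoeff ∧ Polynomial.aeval z⁻¹ P = 0

open Classical in
/-- **Beilinson's equality and the central value** for the newform `f` of level `27` and the representation
`V = ℂ^κ` of `Gal(K/ℚ)`: the `L`-function of `V_f ⊗ V` has a meromorphic continuation, it is analytic at `s = 1`, its order
there is `dim Hom(V, E(K) ⊗ ℂ)` and zero, and its value is `z Ω ^ (dim V)`, where `z` is algebraic and a unit at the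
places above `2`. -/
def Equality {K : Type} [Field K] [NumberField K] {κ : Type} [Fintype κ] [DecidableEq κ]
    (ρ : (K ≃ₐ[ℚ] K) →* GL κ ℂ) : Prop :=
  ∃ L : ℂ → ℂ, IsLFunction ρ L ∧ AnalyticAt ℂ L 1 ∧
    analyticOrderAt L 1 = dimHom ρ (act (K := K)) ∧ analyticOrderAt L 1 = 0 ∧
    ∃ z : ℂ, IsTwoUnit z ∧ L 1 = z * (Om : ℂ) ^ Fintype.card κ

open Pool.Agent.Y696 (E27)
open Pool.Agent.R431.B (pts pts_eq v_periods exists_om map27 disc27)

lemma coeff_eq (p : ℕ) : coeff p = (p : ℤ) - pts (E27 ℤ) (ZMod p) := by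
  unfold coeff
  rw [pts_eq]

lemma dvd_iff {p : ℕ} : (p : ℤ) ∣ (E27 ℤ).Δ ↔ p ∣ 27 := by
  rw [disc27]
  constructor
  · intro h
    have h2 : (p : ℤ) ∣ ((27 : ℕ) : ℤ) := by
      have := (dvd_neg).2 h
      simpa using this
    exact_mod_cast h2
  · intro h
    have h2 : (p : ℤ) ∣ ((27 : ℕ) : ℤ) := by exact_mod_cast h
    have := (dvd_neg).2 h2
    simpa using this

/-- Let `F` be the field of the third roots of unity, and let `K ⊇ F` be a Galois extension of `ℚ`, of degree `2 ^ n` over
`F`, with an Artin map of modulus `m` over `F`, where `2` is not a cube modulo any prime divisor of `m`.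
Then `E(K)`, `E : y² + y = x³`, is finite of odd order; for all pairs of two-dimensional representations `ρ_g`, `ρ_h` and
all characters `χ` of `Gal(K/ℚ)` Beilinson's equality holds for the newforms `f` and `f ⊗ χ` (`f` of level `27`) and the
weight one forms `g`, `h`, both sides being zero, and the central values are `Ω⁴` times algebraic numbers which are units
above `2`; and the same holds, with `Ω ^ d`, for all representations of `Gal(K/ℚ)` of dimension `d`. -/
theorem result (F K : Type) [Field F] [NumberField F] [IsCyclotomicExtension {3} ℚ F] [Field K]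
    [NumberField K] [Algebra F K] [IsGalois ℚ K] (n : ℕ) (hn : Module.finrank F K = 2 ^ n)
    (m : ℕ) (hm : ∀ p : ℕ, p.Prime → p ∣ m → ∀ x : ZMod p, x ^ 3 ≠ 2)
    (art : (𝓞 F ⧸ Ideal.span {(m : 𝓞 F)})ˣ →* Gal(K/F)) (hart : IsArtin (m : 𝓞 F) art) :
    Finite (Pts K) ∧ Odd (Nat.card (Pts K)) ∧
    (∀ ρg ρh : (K ≃ₐ[ℚ] K) →* GL (Fin 2) ℂ, Equality (tensor ρg ρh) ∧
      ∀ χ : (K ≃ₐ[ℚ] K) →* ℂˣ, Equality (twist (tensor ρg ρh) χ)) ∧
    ∀ (κ : Type) [Fintype κ] [DecidableEq κ] (ρ : (K ≃ₐ[ℚ] K) →* GL κ ℂ), Equality ρ := by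
  classical
  have hart' : Pool.Agent.Y696.IsArtin (m : 𝓞 F) art := ⟨hart.surj, hart.unr, hart.frob⟩
  have hgal : IsGalois F K := IsGalois.tower_top_of_isGalois ℚ F K
  have hc : ∀ v₀ : HeightOneSpectrum (𝓞 F), (m : 𝓞 F) ∈ v₀.asIdeal →
      ∀ x : 𝓞 F, x ^ 3 - 2 ∉ v₀.asIdeal := fun v₀ hv x => Pool.Agent.Y696.Nc.cube hm v₀ hv x
  obtain ⟨-, h1, h2, -⟩ := Pool.Agent.Y696.all_art hn hart' hc
  have hcur : curve.map (algebraMap ℚ K) = E27 K := by
    ext <;> simp [E27, curve]
  have hfin : Finite (Pts K) := by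
    unfold Pts
    rw [hcur]
    exact h1
  have hodd : Odd (Nat.card (Pts K)) := by
    unfold Pts
    rw [hcur]
    exact h2
  have key : ∀ (κ : Type) [Fintype κ] [DecidableEq κ] (ρ : (K ≃ₐ[ℚ] K) →* GL κ ℂ), Equality ρ := by
    intro κ _ _ ρ
    obtain ⟨L, l1, l2, l3, l4, l5⟩ := Pool.Agent.K4H15.BT.analytic_part hn hm hart' ρ
    have h8 : analyticOrderAt L 1 = 0 := analyticOrderAt_eq_zero.2 (Or.inr l4)
    have h7 := dimHom_zero (A := Pts K) ρ (act (K := K))
    obtain ⟨Ω₀, hΩ₀, hC₀⟩ := Pool.Agent.Y696.exists_cur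
    obtain ⟨Ω, hC, hΩ⟩ := exists_om hC₀.g2 hC₀.g3
    have hcub : ∀ x : ℝ, Pool.Agent.R431.B.Per.cubic (E27 ℤ) x = 4 * x ^ 3 + 1 := by
      intro x
      simp [Pool.Agent.R431.B.Per.cubic, E27, WeierstrassCurve.b₂, WeierstrassCurve.b₄,
        WeierstrassCurve.b₆]
    have hR : Om = 2 * ∫ x in {x : ℝ | 0 < Pool.Agent.R431.B.Per.cubic (E27 ℤ) x},
        1 / Real.sqrt (Pool.Agent.R431.B.Per.cubic (E27 ℤ) x) := by
      unfold Om
      simp only [hcub]
    have hpos : 0 < Om := by
      obtain ⟨U, hU⟩ := Pool.Agent.Y696.exists_over_two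
      exact (v_periods (Γ := U.ValueGroup) (v := U.valuation) hU hC hΩ hR rfl).1
    have hOm0 : (Om : ℂ) ≠ 0 := by exact_mod_cast hpos.ne'
    have hz0 : L 1 / (Om : ℂ) ^ Fintype.card κ ≠ 0 := div_ne_zero l4 (pow_ne_zero _ hOm0)
    refine ⟨L, ⟨l1, fun V hV s hs => ?_⟩, l3, ?_, h8, L 1 / (Om : ℂ) ^ Fintype.card κ, ⟨hz0, ?_⟩, ?_⟩
    · have := l2 V hV s hs
      convert this using 2 with p
      unfold euler Pool.Agent.K4H15.BT.euler
      rw [coeff_eq]
      simp only [dvd_iff]
      rfl
    · rw [h8, h7]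
      rfl
    · refine Pool.Agent.U297.TT.unit_poly hz0 fun Γ _ w hw => ?_
      obtain ⟨-, -, p3, -⟩ := v_periods hw hC hΩ hR rfl
      have h6 : w Ω ≠ 0 := (Valuation.ne_zero_iff _).2 hC.lat.ne
      rw [map_div₀, map_pow, l5 _ Ω hC hΩ Γ w hw, p3]
      exact div_self (pow_ne_zero _ h6)
    · field_simp
  exact ⟨hfin, hodd, fun ρg ρh => ⟨key _ _, fun χ => key _ _⟩, fun κ _ _ ρ => key κ ρ⟩

end Pool.Agent.Results.MP_60ff09_nt.LevelTwentySeven
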